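import Pool.Agent.V11237.Vantage

/-!
Deterministic adaptive algorithms that always reveal at least `OPT` capacities need a linear number
of vantage points on some instances with `n / k` arbitrarily large.
-/

set_option autoImplicit false

open Pool.Agent.V11237.Vantage

/-- For every `L` there are a graph with valid edge lengths on `n` vertices and `k ≥ 1` with
`n / k ≥ L` such that for every deterministic adaptive algorithm there are positive, pairwise
distinct capacities for which its first `m` vantage points reveal fewer than `OPT(G, c, k)` edges,
for every `m ≤ n / 64`. -/
theorem Pool.Agent.Results.MP_617207_lc.LinearVantage.result (L : ℝ) :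
    ∃ (V : Type) (_ : Fintype V) (G : SimpleGraph V) (len : Sym2 V → ℝ) (k : ℕ),
      0 < k ∧ L ≤ (Fintype.card V : ℝ) / k ∧ ValidLengths G len ∧
        ∀ σ : Algo V, ∃ c : Sym2 V → ℝ, (∀ e, 0 < c e) ∧ Function.Injective c ∧
          ∀ m : ℕ, 64 * m ≤ Fintype.card V →
            (revealed G len c (points (run G len c σ m))).ncard < opt G len c k :=
  main L
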